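import Mathlib

/-!
# Independence number, even-distance counts and local independence

For a connected graph with at least two vertices,
`α(G) ≤ 1 + δ_even(G) (Λ(G) - 1)`.

Proof.  Fix `v` and let `E` be the set of vertices at even distance from `v`.  Send every vertex of a
maximum independent set `I` at even distance to itself and every vertex at odd distance to a
predecessor (a neighbour one step closer to `v`), which lies in `E`.  The fibre of `u ∈ E` is `{u}` if
`u ∈ I`; otherwise it is an independent set of neighbours of `u` one step further from `v` than `u`,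
and if `u ≠ v` it stays independent when a predecessor of `u` is added.  So the fibres have at most
`Λ - 1` elements, except for `u = v`, where `Λ` are possible.
-/

set_option autoImplicit false

namespace Pool.Agent.Results.MP_c843e9_co.EvenDistanceBound

open Finset

variable {V : Type*} [Fintype V] [DecidableEq V] (G : SimpleGraph V)

/-- `D_even(v)`: the number of vertices at even distance from `v` (`v` included). -/
noncomputable def evenCount (v : V) : ℕ := {u : V | Even (G.dist u v)}.ncard

/-- `λ(v)`: the independence number of the subgraph induced on the neighbourhood of `v`. -/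
noncomputable def localIndep (v : V) : ℕ := (G.induce (G.neighborSet v)).indepNum

variable {G}

omit [Fintype V] [DecidableEq V] in
/-- Every vertex different from `v` has a neighbour one step closer to `v`. -/
lemma exists_pred (hG : G.Connected) {v x : V} (h : G.dist v x ≠ 0) :
    ∃ w, G.Adj w x ∧ G.dist v w + 1 = G.dist v x := by
  obtain ⟨p, hp⟩ := (hG x v).exists_walk_length_eq_dist
  rw [SimpleGraph.dist_comm] at h
  cases p with
  | nil => simp at h
  | @cons _ w _ hadj q =>
    refine ⟨w, hadj.symm, ?_⟩
    rw [SimpleGraph.Walk.length_cons] at hp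
    have h1 : G.dist w v ≤ q.length := SimpleGraph.dist_le q
    have h2 : G.dist x v ≤ G.dist x w + G.dist w v := hG.dist_triangle
    have h3 : G.dist x w = 1 := SimpleGraph.dist_eq_one_iff_adj.2 hadj
    rw [SimpleGraph.dist_comm (u := v) (v := w), SimpleGraph.dist_comm (u := v) (v := x)]
    omega

omit [DecidableEq V] in
lemma card_le_local [DecidableEq V] (u : V) (s : Finset V) (h1 : ∀ x ∈ s, G.Adj u x)
    (h2 : G.IsIndepSet (s : Set V)) : s.card ≤ localIndep G u := by
  classical
  have h3 : (s.subtype (· ∈ G.neighborSet u)).card = s.card := by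
    rw [Finset.card_subtype]
    congr 1
    rw [Finset.filter_eq_self]
    intro x hx
    exact h1 x hx
  rw [← h3]
  unfold localIndep
  apply SimpleGraph.IsIndepSet.card_le_indepNum
  rw [SimpleGraph.isIndepSet_iff]
  intro a ha b hb hab h4
  rw [Finset.mem_coe, Finset.mem_subtype] at ha hb
  exact h2 ha hb (fun h => hab (Subtype.ext h)) h4

omit [DecidableEq V] in
lemma le_sup (u : V) : localIndep G u ≤ ⨆ w, localIndep G w :=
  le_ciSup (Set.finite_range _).bddAbove u

omit [Fintype V] [DecidableEq V] in
lemma dist_le_of_adj (hG : G.Connected) (v : V) {a b : V} (h : G.Adj a b) :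
    G.dist v b ≤ G.dist v a + 1 := by
  have h1 : G.dist v b ≤ G.dist v a + G.dist a b := hG.dist_triangle
  have h2 : G.dist a b = 1 := SimpleGraph.dist_eq_one_iff_adj.2 h
  omega

open Classical in
theorem bound [Nontrivial V] (hG : G.Connected) (v : V) :
    (G.indepNum : ℤ) ≤ 1 + (evenCount G v : ℤ) * (((⨆ w, localIndep G w : ℕ) : ℤ) - 1) := by
  set Λ : ℕ := ⨆ w, localIndep G w with hΛ
  obtain ⟨I, hI⟩ := G.exists_isNIndepSet_indepNum
  have hI1 : G.IsIndepSet (I : Set V) := hI.isIndepSet
  have hI2 : I.card = G.indepNum := hI.card_eq
  -- the predecessor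
  have hpred : ∀ x : V, ∃ w, G.dist v x ≠ 0 → G.Adj w x ∧ G.dist v w + 1 = G.dist v x := by
    intro x
    by_cases h : G.dist v x = 0
    · exact ⟨x, fun h' => absurd h h'⟩
    · obtain ⟨w, hw⟩ := exists_pred hG h
      exact ⟨w, fun _ => hw⟩
  choose f hf using hpred
  let E : Finset V := univ.filter fun u => Even (G.dist v u)
  let g : V → V := fun x => if Even (G.dist v x) then x else f x
  have hodd : ∀ x, ¬ Even (G.dist v x) → G.dist v x ≠ 0 := by
    intro x hx h0
    rw [h0] at hx
    exact hx Even.zero
  have hgE : ∀ x ∈ I, g x ∈ E := by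
    intro x _
    simp only [E, mem_filter, mem_univ, true_and, g]
    split_ifs with h
    · exact h
    · have h1 := (hf x (hodd x h)).2
      rw [← h1, Nat.even_add_one, not_not] at h
      exact h
  have hvE : v ∈ E := by simp [E]
  have hcardE : E.card = evenCount G v := by
    unfold evenCount
    rw [← Set.ncard_coe_finset]
    congr 1
    ext u
    simp [E, SimpleGraph.dist_comm]
  -- the fibres
  have hfib : ∀ u ∈ E, ∀ x ∈ I.filter (fun x => g x = u), x ≠ u → G.Adj u x ∧
      G.dist v u + 1 = G.dist v x := by
    intro u hu x hx hxu
    rw [mem_filter] at hx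
    obtain ⟨hxI, hgx⟩ := hx
    simp only [g] at hgx
    split_ifs at hgx with h
    · exact absurd hgx hxu
    · rw [← hgx]
      exact hf x (hodd x h)
  have hfibI : ∀ u ∈ E, u ∈ I → (I.filter (fun x => g x = u)).card ≤ 1 := by
    intro u hu huI
    rw [Finset.card_le_one]
    have : ∀ x ∈ I.filter (fun x => g x = u), x = u := by
      intro x hx
      by_contra hxu
      have h1 := (hfib u hu x hx hxu).1
      exact hI1 huI (mem_filter.1 hx).1 (Ne.symm hxu) h1
    intro a ha b hb
    rw [this a ha, this b hb]
  have hindep : ∀ s ⊆ I, G.IsIndepSet (s : Set V) := fun s hs a ha b hb hab => hI1 (hs ha) (hs hb) hab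
  have hfibv : (I.filter (fun x => g x = v)).card ≤ Λ := by
    by_cases hvI : v ∈ I
    · refine (hfibI v hvE hvI).trans ?_
      obtain ⟨x, hx⟩ := exists_ne v
      obtain ⟨w, hw, -⟩ := exists_pred (v := x) (x := v) hG (hG.pos_dist_of_ne hx).ne'
      refine le_trans ?_ (le_sup v)
      have := card_le_local (G := G) v {w} (by simpa using hw.symm)
        (by simp [SimpleGraph.isIndepSet_iff])
      simpa using this
    · refine le_trans (card_le_local v _ ?_ (hindep _ (filter_subset _ _))) (le_sup v)
      intro x hx
      refine (hfib v hvE x hx ?_).1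
      rintro rfl
      exact hvI (mem_filter.1 hx).1
  have hfibu : ∀ u ∈ E, u ≠ v → (I.filter (fun x => g x = u)).card + 1 ≤ Λ := by
    intro u hu huv
    have hu0 : G.dist v u ≠ 0 := (hG.pos_dist_of_ne (Ne.symm huv)).ne'
    have huE : Even (G.dist v u) := (mem_filter.1 hu).2
    obtain ⟨hw1, hw2⟩ := hf u hu0
    by_cases huI : u ∈ I
    · -- two steps back
      have hw0 : G.dist v (f u) ≠ 0 := by
        intro h0
        rw [h0] at hw2
        rw [← hw2] at huE
        exact absurd huE (by decide)
      obtain ⟨hz1, hz2⟩ := hf (f u) hw0
      have hne : u ≠ f (f u) := by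
        intro h
        rw [← h] at hz2
        omega
      have hna : ¬ G.Adj (f (f u)) u := by
        intro h
        have := dist_le_of_adj hG v h
        omega
      have h2 : ({u, f (f u)} : Finset V).card = 2 := Finset.card_pair hne
      have h3 : ({u, f (f u)} : Finset V).card ≤ localIndep G (f u) := by
        apply card_le_local
        · intro x hx
          rw [mem_insert, mem_singleton] at hx
          rcases hx with rfl | rfl
          · exact hw1
          · exact hz1.symm
        · rw [SimpleGraph.isIndepSet_iff]
          intro a ha b hb hab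
          simp only [coe_insert, coe_singleton, Set.mem_insert_iff, Set.mem_singleton_iff] at ha hb
          rcases ha with rfl | rfl <;> rcases hb with rfl | rfl
          · exact absurd rfl hab
          · exact fun h => hna h.symm
          · exact hna
          · exact absurd rfl hab
      have h4 := le_sup (G := G) (f u)
      have h5 := hfibI u hu huI
      omega
    · have hx : ∀ x ∈ I.filter (fun x => g x = u), G.Adj u x ∧ G.dist v u + 1 = G.dist v x := by
        intro x hx
        refine hfib u hu x hx ?_
        rintro rfl
        exact huI (mem_filter.1 hx).1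
      have hnot : f u ∉ I.filter (fun x => g x = u) := by
        intro h
        have := (hx _ h).2
        omega
      have hna : ∀ x ∈ I.filter (fun x => g x = u), ¬ G.Adj (f u) x := by
        intro x h h'
        have h1 := (hx _ h).2
        have h2 := dist_le_of_adj hG v h'
        omega
      have h1 := card_le_local (G := G) u (insert (f u) (I.filter (fun x => g x = u))) (by
        intro x h
        rcases mem_insert.1 h with rfl | h
        · exact hw1.symm
        · exact (hx x h).1) (by
        intro a ha b hb hab
        rw [mem_coe, mem_insert] at ha hb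
        rcases ha with rfl | ha <;> rcases hb with rfl | hb
        · exact absurd rfl hab
        · exact hna b hb
        · exact fun h => hna a ha h.symm
        · exact hI1 (mem_filter.1 ha).1 (mem_filter.1 hb).1 hab)
      rw [card_insert_of_notMem hnot] at h1
      exact h1.trans (le_sup u)
  -- the count
  have hsum : I.card = ∑ u ∈ E, (I.filter (fun x => g x = u)).card :=
    Finset.card_eq_sum_card_fiberwise hgE
  rw [← Finset.add_sum_erase _ _ hvE] at hsum
  have h1 : (∑ u ∈ E.erase v, ((I.filter (fun x => g x = u)).card : ℤ)) ≤
      ∑ _u ∈ E.erase v, ((Λ : ℤ) - 1) := by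
    apply Finset.sum_le_sum
    intro u hu
    rw [mem_erase] at hu
    have := hfibu u hu.2 hu.1
    omega
  rw [Finset.sum_const, Finset.card_erase_of_mem hvE, nsmul_eq_mul] at h1
  have hE1 : 1 ≤ E.card := Finset.card_pos.2 ⟨v, hvE⟩
  push_cast [hE1] at h1
  have h2 : (I.card : ℤ) = ((I.filter (fun x => g x = v)).card : ℤ) +
      ∑ u ∈ E.erase v, ((I.filter (fun x => g x = u)).card : ℤ) := by
    rw [hsum]
    push_cast
    rfl
  have h3 : ((I.filter (fun x => g x = v)).card : ℤ) ≤ Λ := by exact_mod_cast hfibv
  rw [← hI2, ← hcardE]
  nlinarith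

/-- **Main result.**  Every connected finite simple graph with at least two vertices satisfies
`α(G) ≤ 1 + δ_even(G) (Λ(G) - 1)`. -/
theorem result (V : Type*) [Fintype V] (G : SimpleGraph V) (hG : G.Connected)
    (hV : 2 ≤ Fintype.card V) :
    (G.indepNum : ℤ) ≤ 1 + ((⨅ v, evenCount G v : ℕ) : ℤ) * (((⨆ v, localIndep G v : ℕ) : ℤ) - 1) := by
  classical
  have : Nontrivial V := Fintype.one_lt_card_iff_nontrivial.1 hV
  obtain ⟨v, hv⟩ := ciInf_mem (fun v => evenCount G v)
  have h := bound hG v
  simp only at hv
  rw [hv] at h
  exact h

end Pool.Agent.Results.MP_c843e9_co.EvenDistanceBound
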